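import Pool.Agent.Helper40.CWS.M_MCC

/-! Project CWS, module CMV: the vertex of an open cone over a compact space containing an open disc is
moved by a local semiflow.  The cone over the disc is a half plane times the circle, in the coordinates
of the 1-norm: the point of radius `r` over `w` is `(r (1 - 2 ‖w‖), r (1 - |1 - 2 ‖w‖|))`, and the flow
is the translation of the first coordinate. -/

set_option autoImplicit false

namespace Pool.Agent.Helper40.CWS

open Set Topology Metric Filter Pool.Agent.Helper35.CWS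

namespace CMV

/-- first coordinate -/
noncomputable def ca (w : ℂ) (r : ℝ) : ℝ := r * (1 - 2 * ‖w‖)

/-- second coordinate -/
noncomputable def cb (w : ℂ) (r : ℝ) : ℝ := r * (1 - |1 - 2 * ‖w‖|)

/-- new radius -/
noncomputable def rho (s : ℝ) (w : ℂ) (r : ℝ) : ℝ := |ca w r + s| + cb w r

/-- new norm of the disc coordinate -/
noncomputable def tau (s : ℝ) (w : ℂ) (r : ℝ) : ℝ := (1 - (ca w r + s) / rho s w r) / 2

/-- new disc coordinate -/
noncomputable def wn (s : ℝ) (w : ℂ) (r : ℝ) : ℂ := (tau s w r / ‖w‖) • w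

theorem abs_one_sub (w : ℂ) (hw : ‖w‖ ≤ 1) : |1 - 2 * ‖w‖| ≤ 1 := by
  rw [abs_le]
  constructor <;> nlinarith [norm_nonneg w]

theorem cb_nonneg (w : ℂ) (hw : ‖w‖ ≤ 1) (r : ℝ) (hr : 0 ≤ r) : 0 ≤ cb w r := by
  unfold cb
  have := abs_one_sub w hw
  exact mul_nonneg hr (by linarith)

theorem abs_ca (w : ℂ) (r : ℝ) (hr : 0 ≤ r) : |ca w r| + cb w r = r := by
  unfold ca cb
  rw [abs_mul, abs_of_nonneg hr]
  ring

theorem rho_nonneg (s : ℝ) (w : ℂ) (hw : ‖w‖ ≤ 1) (r : ℝ) (hr : 0 ≤ r) : 0 ≤ rho s w r := by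
  unfold rho
  have := cb_nonneg w hw r hr
  have := abs_nonneg (ca w r + s)
  linarith

theorem rho_le (s : ℝ) (hs : 0 ≤ s) (w : ℂ) (r : ℝ) (hr : 0 ≤ r) : rho s w r ≤ r + s := by
  unfold rho
  have h1 := abs_add_le (ca w r) s
  have h2 := abs_ca w r hr
  rw [abs_of_nonneg hs] at h1
  linarith

theorem abs_le_rho (s : ℝ) (w : ℂ) (hw : ‖w‖ ≤ 1) (r : ℝ) (hr : 0 ≤ r) :
    |ca w r + s| ≤ rho s w r := by
  unfold rho
  have := cb_nonneg w hw r hr
  linarith

theorem abs_div_rho (s : ℝ) (w : ℂ) (hw : ‖w‖ ≤ 1) (r : ℝ) (hr : 0 ≤ r) :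
    |(ca w r + s) / rho s w r| ≤ 1 := by
  have h0 := rho_nonneg s w hw r hr
  rw [abs_div, abs_of_nonneg h0]
  exact div_le_one_of_le₀ (abs_le_rho s w hw r hr) h0

theorem tau_mem (s : ℝ) (w : ℂ) (hw : ‖w‖ ≤ 1) (r : ℝ) (hr : 0 ≤ r) :
    0 ≤ tau s w r ∧ tau s w r ≤ 1 := by
  have h := abs_le.1 (abs_div_rho s w hw r hr)
  unfold tau
  constructor <;> linarith [h.1, h.2]

theorem norm_wn (s : ℝ) (w : ℂ) (hw : ‖w‖ ≤ 1) (r : ℝ) (hr : 0 ≤ r) :
    ‖wn s w r‖ ≤ tau s w r := by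
  unfold wn
  have h0 := (tau_mem s w hw r hr).1
  rw [norm_smul, Real.norm_eq_abs, abs_div, abs_norm, abs_of_nonneg h0]
  by_cases h : ‖w‖ = 0
  · rw [h]
    simpa using h0
  · rw [div_mul_cancel₀ _ h]

theorem norm_wn_eq (s : ℝ) (w : ℂ) (hw0 : w ≠ 0) (hw : ‖w‖ ≤ 1) (r : ℝ) (hr : 0 ≤ r) :
    ‖wn s w r‖ = tau s w r := by
  unfold wn
  have h0 := (tau_mem s w hw r hr).1
  rw [norm_smul, Real.norm_eq_abs, abs_div, abs_norm, abs_of_nonneg h0,
    div_mul_cancel₀ _ (norm_ne_zero_iff.2 hw0)]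

theorem wn_zero (s r : ℝ) : wn s 0 r = 0 := by
  unfold wn
  rw [smul_zero]

theorem norm_wn_le (s : ℝ) (w : ℂ) (hw : ‖w‖ ≤ 1) (r : ℝ) (hr : 0 ≤ r) : ‖wn s w r‖ ≤ 1 :=
  (norm_wn s w hw r hr).trans (tau_mem s w hw r hr).2

/-- the new coordinates, when the radius is positive -/
theorem ca_new (s : ℝ) (w : ℂ) (hw : ‖w‖ ≤ 1) (r : ℝ) (hr : 0 ≤ r) (hs : 0 ≤ s)
    (h : 0 < rho s w r) : ca (wn s w r) (rho s w r) = ca w r + s := by
  by_cases hw0 : w = 0
  · subst hw0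
    rw [wn_zero]
    unfold ca rho ca cb
    simp only [norm_zero, mul_zero, sub_zero, mul_one, abs_one, sub_self, add_zero]
    exact abs_of_nonneg (by linarith)
  · unfold ca
    rw [norm_wn_eq s w hw0 hw r hr]
    unfold tau
    rw [show ca w r + s = r * (1 - 2 * ‖w‖) + s from rfl]
    have h' : rho s w r ≠ 0 := h.ne'
    field_simp
    ring

theorem cb_new (s : ℝ) (w : ℂ) (hw : ‖w‖ ≤ 1) (r : ℝ) (hr : 0 ≤ r) (hs : 0 ≤ s)
    (h : 0 < rho s w r) : cb (wn s w r) (rho s w r) = cb w r := by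
  have h1 := abs_ca (wn s w r) (rho s w r) h.le
  rw [ca_new s w hw r hr hs h] at h1
  have h2 : rho s w r = |ca w r + s| + cb w r := rfl
  linarith

variable {X L : Type}

/-- the flow on the cone over the disc -/
noncomputable def G1 (h : L × ℝ → X) (d : ℂ → L) (s : ℝ) (w : ℂ) (r : ℝ) : X :=
  h (d (wn s w r), rho s w r)

open Classical in
/-- the flow on the rest -/
noncomputable def G2 (h : L × ℝ → X) (d : ℂ → L) (s : ℝ) (l : L) (r : ℝ) : X :=
  if s ≤ r then h (l, r - s) else h (d 0, s - r)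

theorem rho_zero (s : ℝ) (hs : 0 ≤ s) (w : ℂ) : rho s w 0 = s := by
  unfold rho ca cb
  rw [zero_mul, zero_mul, zero_add, add_zero, abs_of_nonneg hs]

theorem G1_zero (h : L × ℝ → X) (d : ℂ → L) (x : X) (hx : ∀ l, h (l, 0) = x) (s : ℝ) (hs : 0 ≤ s)
    (w : ℂ) : G1 h d s w 0 = h (d 0, s) := by
  unfold G1
  rw [rho_zero s hs]
  rcases eq_or_lt_of_le hs with h0 | h0
  · rw [← h0, hx, hx]
  · have h1 : tau s w 0 = 0 := by
      unfold tau
      rw [rho_zero s hs]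
      unfold ca
      rw [zero_mul, zero_add, div_self h0.ne', sub_self, zero_div]
    unfold wn
    rw [h1, zero_div, zero_smul]

theorem G1_add (h : L × ℝ → X) (d : ℂ → L) (x : X) (hx : ∀ l, h (l, 0) = x) (s s' : ℝ) (hs : 0 ≤ s)
    (hs' : 0 ≤ s') (w : ℂ) (hw : ‖w‖ ≤ 1) (r : ℝ) (hr : 0 ≤ r) :
    G1 h d (s + s') w r = G1 h d s (wn s' w r) (rho s' w r) := by
  rcases eq_or_lt_of_le (rho_nonneg s' w hw r hr) with h0 | h0
  · -- the vertex is reached
    rw [← h0, G1_zero h d x hx s hs]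
    have h1 : |ca w r + s'| + cb w r = 0 := h0.symm
    have h2 := cb_nonneg w hw r hr
    have h3 := abs_nonneg (ca w r + s')
    have h4 : cb w r = 0 := by linarith
    have h5 : ca w r + s' = 0 := abs_eq_zero.1 (by linarith)
    have h6 : ca w r + (s + s') = s := by linarith
    have h7 : rho (s + s') w r = s := by
      unfold rho
      rw [h6, h4, add_zero, abs_of_nonneg hs]
    unfold G1
    rw [h7]
    rcases eq_or_lt_of_le hs with h8 | h8
    · rw [← h8, hx, hx]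
    · have h9 : tau (s + s') w r = 0 := by
        unfold tau
        rw [h6, h7, div_self h8.ne', sub_self, zero_div]
      unfold wn
      rw [h9, zero_div, zero_smul]
  · have h1 := ca_new s' w hw r hr hs' h0
    have h2 := cb_new s' w hw r hr hs' h0
    have h3 : rho s (wn s' w r) (rho s' w r) = rho (s + s') w r := by
      show |ca (wn s' w r) (rho s' w r) + s| + cb (wn s' w r) (rho s' w r) = |ca w r + (s + s')| + cb w r
      rw [h1, h2]
      congr 2
      ring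
    have h4 : tau s (wn s' w r) (rho s' w r) = tau (s + s') w r := by
      show (1 - (ca (wn s' w r) (rho s' w r) + s) / rho s (wn s' w r) (rho s' w r)) / 2 =
        (1 - (ca w r + (s + s')) / rho (s + s') w r) / 2
      rw [h1, h3]
      congr 3
      ring
    have h5 : wn s (wn s' w r) (rho s' w r) = wn (s + s') w r := by
      by_cases hw0 : w = 0
      · subst hw0
        rw [wn_zero, wn_zero, wn_zero]
      · have h6 := norm_wn_eq s' w hw0 hw r hr
        show (tau s (wn s' w r) (rho s' w r) / ‖wn s' w r‖) • wn s' w r = _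
        rw [h4, h6]
        by_cases h7 : tau s' w r = 0
        · -- then the new tau is zero
          have h8 : tau (s + s') w r = 0 := by
            have h9 : (ca w r + s') / rho s' w r = 1 := by
              unfold tau at h7
              linarith
            have h10 : ca w r + s' = rho s' w r := by
              rw [div_eq_one_iff_eq h0.ne'] at h9
              exact h9
            have h11 : 0 < ca w r + s' := by rw [h10]; exact h0
            have h12 : rho s' w r = |ca w r + s'| + cb w r := rfl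
            rw [abs_of_pos h11] at h12
            have h13 : cb w r = 0 := by linarith
            have h14 : rho (s + s') w r = ca w r + (s + s') := by
              show |ca w r + (s + s')| + cb w r = _
              rw [h13, add_zero]
              exact abs_of_nonneg (by linarith)
            unfold tau
            rw [h14, div_self (by linarith), sub_self, zero_div]
          rw [h8, zero_div, zero_smul]
          unfold wn
          rw [h8, zero_div, zero_smul]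
        · unfold wn
          rw [smul_smul]
          congr 1
          field_simp
    unfold G1
    rw [h3, h5]

theorem G1_id (h : L × ℝ → X) (d : ℂ → L) (x : X) (hx : ∀ l, h (l, 0) = x) (w : ℂ) (r : ℝ)
    (hr : 0 ≤ r) : G1 h d 0 w r = h (d w, r) := by
  have h1 : rho 0 w r = r := by
    show |ca w r + 0| + cb w r = r
    rw [add_zero]
    exact abs_ca w r hr
  unfold G1
  rw [h1]
  rcases eq_or_lt_of_le hr with h0 | h0
  · rw [← h0, hx, hx]
  · have h2 : tau 0 w r = ‖w‖ := by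
      unfold tau
      rw [h1]
      unfold ca
      field_simp
      ring
    have h3 : wn 0 w r = w := by
      unfold wn
      rw [h2]
      by_cases hw : w = 0
      · rw [hw, smul_zero]
      · rw [div_self (norm_ne_zero_iff.2 hw), one_smul]
    rw [h3]

theorem G1_bd (h : L × ℝ → X) (d : ℂ → L) (x : X) (hx : ∀ l, h (l, 0) = x) (s : ℝ)
    (w : ℂ) (hw : ‖w‖ = 1) (r : ℝ) : G1 h d s w r = G2 h d s (d w) r := by
  have h1 : ca w r = -r := by
    unfold ca
    rw [hw]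
    ring
  have h2 : cb w r = 0 := by
    unfold cb
    rw [hw]
    norm_num
  have h3 : rho s w r = |s - r| := by
    unfold rho
    rw [h1, h2, add_zero]
    congr 1
    ring
  have h4 : tau s w r = (1 - (s - r) / |s - r|) / 2 := by
    unfold tau
    rw [h3, h1]
    congr 3
    ring
  unfold G1 G2
  rw [h3]
  rcases lt_trichotomy s r with h5 | h5 | h5
  · have h6 : tau s w r = 1 := by
      rw [h4, abs_of_neg (by linarith : s - r < 0), div_neg, div_self (by linarith : s - r ≠ 0)]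
      norm_num
    rw [if_pos h5.le, abs_of_neg (by linarith : s - r < 0)]
    unfold wn
    rw [h6, hw, div_one, one_smul]
    congr 2
    ring
  · subst h5
    rw [if_pos (le_refl s), sub_self, abs_zero, hx, hx]
  · have h6 : tau s w r = 0 := by
      rw [h4, abs_of_pos (by linarith : 0 < s - r), div_self (by linarith : s - r ≠ 0)]
      norm_num
    rw [if_neg (not_le.2 h5), abs_of_pos (by linarith : 0 < s - r)]
    unfold wn
    rw [h6, zero_div, zero_smul]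

theorem G1_w0 (h : L × ℝ → X) (d : ℂ → L) (s : ℝ) (r : ℝ) (hs : 0 ≤ s) (hr : 0 ≤ r) :
    G1 h d s 0 r = h (d 0, r + s) := by
  have h1 : rho s 0 r = r + s := by
    unfold rho ca cb
    simp only [norm_zero, mul_zero, sub_zero, mul_one, abs_one, sub_self, add_zero]
    exact abs_of_nonneg (by linarith)
  unfold G1
  rw [h1, wn_zero]

theorem rho_cont : Continuous (fun p : ℝ × ℂ × ℝ => rho p.1 p.2.1 p.2.2) := by
  unfold rho ca cb
  fun_prop

theorem ca_cont : Continuous (fun p : ℝ × ℂ × ℝ => ca p.2.1 p.2.2 + p.1) := by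
  unfold ca
  fun_prop

section Top

variable [TopologicalSpace X] [TopologicalSpace L] [CompactSpace L]

theorem G1_cont (h : L × ℝ → X) (d : ℂ → L) (x : X) (hx : ∀ l, h (l, 0) = x)
    (hc : ContinuousOn h (univ ×ˢ Ico (0 : ℝ) 1)) (hd : ContinuousOn d (closedBall 0 1)) :
    ContinuousOn (fun p : ℝ × ℂ × ℝ => G1 h d p.1 p.2.1 p.2.2)
      (Icc (0 : ℝ) (1 / 4) ×ˢ (closedBall (0 : ℂ) 1 ×ˢ Icc (0 : ℝ) (1 / 2))) := by
  rintro ⟨s0, w0, r0⟩ ⟨hs0, hw0, hr0⟩
  simp only at hs0 hw0 hr0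
  rw [mem_closedBall_zero_iff] at hw0
  refine tendsto_iff_ultrafilter _ _ _ |>.2 ?_
  intro U hU
  have hid : Tendsto (fun p : ℝ × ℂ × ℝ => p) U (𝓝 (s0, w0, r0)) := hU.trans nhdsWithin_le_nhds
  have hUD : ∀ᶠ p in (U : Filter (ℝ × ℂ × ℝ)), p ∈ Icc (0 : ℝ) (1 / 4) ×ˢ
      (closedBall (0 : ℂ) 1 ×ˢ Icc (0 : ℝ) (1 / 2)) := hU self_mem_nhdsWithin
  have hUD' : ∀ᶠ p in (U : Filter (ℝ × ℂ × ℝ)), (0 ≤ p.1 ∧ p.1 ≤ 1 / 4) ∧ ‖p.2.1‖ ≤ 1 ∧
      (0 ≤ p.2.2 ∧ p.2.2 ≤ 1 / 2) := by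
    filter_upwards [hUD] with p hp
    exact ⟨hp.1, mem_closedBall_zero_iff.1 hp.2.1, hp.2.2⟩
  have hρ : Tendsto (fun p : ℝ × ℂ × ℝ => rho p.1 p.2.1 p.2.2) U (𝓝 (rho s0 w0 r0)) :=
    (rho_cont.tendsto (s0, w0, r0)).comp hid
  have hρI : ∀ᶠ p in (U : Filter (ℝ × ℂ × ℝ)), rho p.1 p.2.1 p.2.2 ∈ Ico (0 : ℝ) 1 := by
    filter_upwards [hUD'] with p hp
    refine ⟨rho_nonneg _ _ hp.2.1 _ hp.2.2.1, ?_⟩
    have := rho_le p.1 hp.1.1 p.2.1 p.2.2 hp.2.2.1
    linarith [hp.1.2, hp.2.2.2]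
  have h0 := rho_nonneg s0 w0 hw0 r0 hr0.1
  have h1 : rho s0 w0 r0 < 1 := by
    have := rho_le s0 hs0.1 w0 r0 hr0.1
    linarith [hs0.2, hr0.2]
  show Tendsto (fun p : ℝ × ℂ × ℝ => G1 h d p.1 p.2.1 p.2.2) U (𝓝 (G1 h d s0 w0 r0))
  unfold G1
  -- a limit of the first coordinate is enough
  have hfin : ∀ l1 : L, Tendsto (fun p : ℝ × ℂ × ℝ => d (wn p.1 p.2.1 p.2.2)) U (𝓝 l1) →
      h (l1, rho s0 w0 r0) = h (d (wn s0 w0 r0), rho s0 w0 r0) →
      Tendsto (fun p : ℝ × ℂ × ℝ => h (d (wn p.1 p.2.1 p.2.2), rho p.1 p.2.1 p.2.2)) U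
        (𝓝 (h (d (wn s0 w0 r0), rho s0 w0 r0))) := by
    intro l1 hl1 he
    rw [← he]
    have hcp : ContinuousWithinAt h (univ ×ˢ Ico (0 : ℝ) 1) (l1, rho s0 w0 r0) :=
      hc _ ⟨mem_univ _, h0, h1⟩
    refine hcp.tendsto.comp ?_
    refine tendsto_nhdsWithin_iff.2 ⟨hl1.prodMk_nhds hρ, ?_⟩
    filter_upwards [hρI] with p hp
    exact ⟨mem_univ _, hp⟩
  rcases eq_or_lt_of_le h0 with h2 | h2
  · obtain ⟨l1, _, hl1⟩ := (isCompact_univ (X := L)).ultrafilter_le_nhds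
      (U.map (fun p : ℝ × ℂ × ℝ => d (wn p.1 p.2.1 p.2.2))) (by simp)
    refine hfin l1 hl1 ?_
    rw [← h2, hx, hx]
  · refine hfin _ ?_ rfl
    have hτ : Tendsto (fun p : ℝ × ℂ × ℝ => tau p.1 p.2.1 p.2.2) U (𝓝 (tau s0 w0 r0)) := by
      unfold tau
      have h3 := ((ca_cont.tendsto (s0, w0, r0)).comp hid).div hρ h2.ne'
      exact (h3.const_sub 1).div_const 2
    have hw : Tendsto (fun p : ℝ × ℂ × ℝ => p.2.1) U (𝓝 w0) :=
      ((continuous_fst.comp continuous_snd).tendsto (s0, w0, r0)).comp hid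
    have hwn : Tendsto (fun p : ℝ × ℂ × ℝ => wn p.1 p.2.1 p.2.2) U (𝓝 (wn s0 w0 r0)) := by
      by_cases hz : w0 = 0
      · have h4 : tau s0 w0 r0 = 0 := by
          have h5 : ca w0 r0 + s0 = rho s0 w0 r0 := by
            rw [hz]
            unfold rho ca cb
            simp only [norm_zero, mul_zero, sub_zero, mul_one, abs_one, sub_self, add_zero]
            rw [abs_of_nonneg (by linarith [hs0.1, hr0.1])]
          unfold tau
          rw [h5, div_self h2.ne', sub_self, zero_div]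
        have h6 : wn s0 w0 r0 = 0 := by rw [hz, wn_zero]
        rw [h6]
        rw [h4] at hτ
        refine squeeze_zero_norm' ?_ hτ
        filter_upwards [hUD'] with p hp
        exact norm_wn _ _ hp.2.1 _ hp.2.2.1
      · unfold wn
        have h4 : Tendsto (fun p : ℝ × ℂ × ℝ => ‖p.2.1‖) U (𝓝 ‖w0‖) := hw.norm
        exact (hτ.div h4 (norm_ne_zero_iff.2 hz)).smul hw
    have hdc : ContinuousWithinAt d (closedBall 0 1) (wn s0 w0 r0) :=
      hd _ (mem_closedBall_zero_iff.2 (norm_wn_le s0 w0 hw0 r0 hr0.1))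
    refine hdc.tendsto.comp ?_
    refine tendsto_nhdsWithin_iff.2 ⟨hwn, ?_⟩
    filter_upwards [hUD'] with p hp
    exact mem_closedBall_zero_iff.2 (norm_wn_le _ _ hp.2.1 _ hp.2.2.1)

omit [CompactSpace L] in
theorem G2_cont (h : L × ℝ → X) (d : ℂ → L) (x : X) (hx : ∀ l, h (l, 0) = x)
    (hc : ContinuousOn h (univ ×ˢ Ico (0 : ℝ) 1)) :
    ContinuousOn (fun p : ℝ × L × ℝ => G2 h d p.1 p.2.1 p.2.2)
      (Icc (0 : ℝ) (1 / 4) ×ˢ (univ ×ˢ Icc (0 : ℝ) (1 / 2))) := by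
  rintro ⟨s0, l0, r0⟩ ⟨hs0, _, hr0⟩
  simp only at hs0 hr0
  refine tendsto_iff_ultrafilter _ _ _ |>.2 ?_
  intro U hU
  have hid : Tendsto (fun p : ℝ × L × ℝ => p) U (𝓝 (s0, l0, r0)) := hU.trans nhdsWithin_le_nhds
  have hUD : ∀ᶠ p in (U : Filter (ℝ × L × ℝ)), p ∈ Icc (0 : ℝ) (1 / 4) ×ˢ
      (univ ×ˢ Icc (0 : ℝ) (1 / 2)) := hU self_mem_nhdsWithin
  have hs : Tendsto (fun p : ℝ × L × ℝ => p.1) U (𝓝 s0) :=
    (continuous_fst.tendsto (s0, l0, r0)).comp hid
  have hl : Tendsto (fun p : ℝ × L × ℝ => p.2.1) U (𝓝 l0) :=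
    ((continuous_fst.comp continuous_snd).tendsto (s0, l0, r0)).comp hid
  have hr : Tendsto (fun p : ℝ × L × ℝ => p.2.2) U (𝓝 r0) :=
    ((continuous_snd.comp continuous_snd).tendsto (s0, l0, r0)).comp hid
  show Tendsto (fun p : ℝ × L × ℝ => G2 h d p.1 p.2.1 p.2.2) U (𝓝 (G2 h d s0 l0 r0))
  rcases U.mem_or_compl_mem {p : ℝ × L × ℝ | p.1 ≤ p.2.2} with hc1 | hc1
  · have hsr : s0 ≤ r0 := le_of_tendsto_of_tendsto hs hr hc1
    have h1 : G2 h d s0 l0 r0 = h (l0, r0 - s0) := by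
      unfold G2
      rw [if_pos hsr]
    rw [h1]
    have hcp : ContinuousWithinAt h (univ ×ˢ Ico (0 : ℝ) 1) (l0, r0 - s0) :=
      hc _ ⟨mem_univ _, by show 0 ≤ r0 - s0; linarith, by show r0 - s0 < 1; linarith [hr0.2, hs0.1]⟩
    have h2 : Tendsto (fun p : ℝ × L × ℝ => (p.2.1, p.2.2 - p.1)) U
        (𝓝[univ ×ˢ Ico (0 : ℝ) 1] (l0, r0 - s0)) := by
      refine tendsto_nhdsWithin_iff.2 ⟨hl.prodMk_nhds (hr.sub hs), ?_⟩
      filter_upwards [hUD, hc1] with p hp hq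
      have hq' : p.1 ≤ p.2.2 := hq
      refine ⟨mem_univ _, ?_, ?_⟩
      · show 0 ≤ p.2.2 - p.1
        linarith
      · show p.2.2 - p.1 < 1
        linarith [hp.1.1, hp.2.2.2]
    refine (hcp.tendsto.comp h2).congr' ?_
    filter_upwards [hc1] with p hq
    have hq' : p.1 ≤ p.2.2 := hq
    show h (p.2.1, p.2.2 - p.1) = G2 h d p.1 p.2.1 p.2.2
    unfold G2
    rw [if_pos hq']
  · have hc2 : ∀ᶠ p in (U : Filter (ℝ × L × ℝ)), p.2.2 ≤ p.1 := by
      filter_upwards [hc1] with p hp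
      exact (not_le.1 (show ¬ p.1 ≤ p.2.2 from hp)).le
    have hsr : r0 ≤ s0 := le_of_tendsto_of_tendsto hr hs hc2
    have h1 : G2 h d s0 l0 r0 = h (d 0, s0 - r0) := by
      unfold G2
      rcases eq_or_lt_of_le hsr with h3 | h3
      · rw [if_pos h3.ge, h3, sub_self, hx, hx]
      · rw [if_neg (not_le.2 h3)]
    rw [h1]
    have hcp : ContinuousWithinAt h (univ ×ˢ Ico (0 : ℝ) 1) (d 0, s0 - r0) :=
      hc _ ⟨mem_univ _, by show 0 ≤ s0 - r0; linarith, by show s0 - r0 < 1; linarith [hr0.1, hs0.2]⟩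
    have h2 : Tendsto (fun p : ℝ × L × ℝ => (d 0, p.1 - p.2.2)) U
        (𝓝[univ ×ˢ Ico (0 : ℝ) 1] (d 0, s0 - r0)) := by
      refine tendsto_nhdsWithin_iff.2 ⟨tendsto_const_nhds.prodMk_nhds (hs.sub hr), ?_⟩
      filter_upwards [hUD, hc2] with p hp hq
      refine ⟨mem_univ _, ?_, ?_⟩
      · show 0 ≤ p.1 - p.2.2
        linarith
      · show p.1 - p.2.2 < 1
        linarith [hp.1.2, hp.2.2.1]
    refine (hcp.tendsto.comp h2).congr' ?_
    filter_upwards [hc1] with p hq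
    have hq' : ¬ p.1 ≤ p.2.2 := hq
    show h (d 0, p.1 - p.2.2) = G2 h d p.1 p.2.1 p.2.2
    unfold G2
    rw [if_neg hq']

end Top

open Classical in
/-- the flow in the cone coordinates -/
noncomputable def hG (h : L × ℝ → X) (d : ℂ → L) (σ : L → ℂ) (s : ℝ) (l : L) (r : ℝ) : X :=
  if l ∈ d '' ball 0 1 then G1 h d s (σ l) r else G2 h d s l r

open Classical in
/-- the cone coordinates of a point -/
noncomputable def Pc (h : L × ℝ → X) (l0 : L) (y : X) : L × ℝ :=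
  if H : Co h y then Classical.choose H else (l0, 0)

end CMV

open CMV

theorem hCMV' : StCMV := by
  intro X _ _ _ O x L _ _ _ h d hxO hMC hd hdi hdo
  classical
  have hx : ∀ l, h (l, 0) = x := fun l =>
    mem_singleton_iff.1 ((hMC.hS l 0 ⟨le_refl _, zero_lt_one⟩).2 rfl)
  have hne : ∀ l : L, ∀ r ∈ Ioo (0 : ℝ) 1, h (l, r) ≠ x := by
    intro l r hr he
    exact hr.1.ne' ((hMC.hS l r ⟨hr.1.le, hr.2⟩).1 (mem_singleton_iff.2 he))
  -- the inverse of `d`
  let σ : L → ℂ := Function.invFunOn d (closedBall 0 1)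
  have hσ1 : ∀ w : ℂ, ‖w‖ ≤ 1 → σ (d w) = w := fun w hw =>
    hdi.leftInvOn_invFunOn (mem_closedBall_zero_iff.2 hw)
  have hσ2 : ∀ l ∈ d '' closedBall 0 1, ‖σ l‖ ≤ 1 ∧ d (σ l) = l := by
    rintro l ⟨w, hw, rfl⟩
    have hw' := mem_closedBall_zero_iff.1 hw
    rw [hσ1 w hw']
    exact ⟨hw', rfl⟩
  have hDcl : IsClosed (d '' closedBall 0 1) :=
    ((isCompact_closedBall (0 : ℂ) 1).image_of_continuousOn hd).isClosed
  have hσc : ∀ (U : Ultrafilter (ℝ × L × ℝ)) (l0 : L), l0 ∈ d '' closedBall 0 1 →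
      Tendsto (fun p : ℝ × L × ℝ => p.2.1) U (𝓝 l0) →
      (∀ᶠ p in (U : Filter (ℝ × L × ℝ)), p.2.1 ∈ d '' closedBall 0 1) →
      Tendsto (fun p : ℝ × L × ℝ => σ p.2.1) U (𝓝 (σ l0)) := by
    intro U l0 hl0 hl hev
    obtain ⟨w1, hw1, hw1t⟩ := (isCompact_closedBall (0 : ℂ) 1).ultrafilter_le_nhds
      (U.map (fun p : ℝ × L × ℝ => σ p.2.1)) (by
        rw [le_principal_iff]
        have : ∀ᶠ p in (U : Filter (ℝ × L × ℝ)), σ p.2.1 ∈ closedBall (0 : ℂ) 1 := by
          filter_upwards [hev] with p hp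
          exact mem_closedBall_zero_iff.2 (hσ2 _ hp).1
        exact this)
    have h1 : Tendsto (fun p : ℝ × L × ℝ => σ p.2.1) U (𝓝 w1) := hw1t
    have h2 : Tendsto (fun p : ℝ × L × ℝ => d (σ p.2.1)) U (𝓝 (d w1)) := by
      refine (hd w1 hw1).tendsto.comp (tendsto_nhdsWithin_iff.2 ⟨h1, ?_⟩)
      filter_upwards [hev] with p hp
      exact mem_closedBall_zero_iff.2 (hσ2 _ hp).1
    have h3 : Tendsto (fun p : ℝ × L × ℝ => p.2.1) U (𝓝 (d w1)) := by
      refine h2.congr' ?_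
      filter_upwards [hev] with p hp using (hσ2 _ hp).2
    have h4 : l0 = d w1 := tendsto_nhds_unique hl h3
    rw [h4, hσ1 w1 (mem_closedBall_zero_iff.1 hw1)]
    exact h1
  -- the formula on the closed disc
  have hGD : ∀ w : ℂ, ‖w‖ ≤ 1 → ∀ s r : ℝ, hG h d σ s (d w) r = G1 h d s w r := by
    intro w hw s r
    unfold hG
    by_cases hc : d w ∈ d '' ball 0 1
    · rw [if_pos hc, hσ1 w hw]
    · rw [if_neg hc]
      have h1 : ‖w‖ = 1 := by
        refine le_antisymm hw (not_lt.1 fun h2 => hc ⟨w, mem_ball_zero_iff.2 h2, rfl⟩)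
      exact (G1_bd h d x hx s w h1 r).symm
  have hGcont : ContinuousOn (fun p : ℝ × L × ℝ => hG h d σ p.1 p.2.1 p.2.2)
      (Icc (0 : ℝ) (1 / 4) ×ˢ (univ ×ˢ Icc (0 : ℝ) (1 / 2))) := by
    rintro ⟨s0, l0, r0⟩ hp0
    refine tendsto_iff_ultrafilter _ _ _ |>.2 ?_
    intro U hU
    have hid : Tendsto (fun p : ℝ × L × ℝ => p) U (𝓝 (s0, l0, r0)) := hU.trans nhdsWithin_le_nhds
    have hUD : ∀ᶠ p in (U : Filter (ℝ × L × ℝ)), p ∈ Icc (0 : ℝ) (1 / 4) ×ˢ
        (univ ×ˢ Icc (0 : ℝ) (1 / 2)) := hU self_mem_nhdsWithin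
    have hs : Tendsto (fun p : ℝ × L × ℝ => p.1) U (𝓝 s0) :=
      (continuous_fst.tendsto (s0, l0, r0)).comp hid
    have hl : Tendsto (fun p : ℝ × L × ℝ => p.2.1) U (𝓝 l0) :=
      ((continuous_fst.comp continuous_snd).tendsto (s0, l0, r0)).comp hid
    have hr : Tendsto (fun p : ℝ × L × ℝ => p.2.2) U (𝓝 r0) :=
      ((continuous_snd.comp continuous_snd).tendsto (s0, l0, r0)).comp hid
    show Tendsto (fun p : ℝ × L × ℝ => hG h d σ p.1 p.2.1 p.2.2) U (𝓝 (hG h d σ s0 l0 r0))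
    rcases U.mem_or_compl_mem {p : ℝ × L × ℝ | p.2.1 ∈ d '' closedBall 0 1} with hc | hc
    · have hl0 : l0 ∈ d '' closedBall 0 1 := hDcl.mem_of_tendsto hl hc
      have h1 := hσc U l0 hl0 hl hc
      have h2 : hG h d σ s0 l0 r0 = G1 h d s0 (σ l0) r0 := by
        have h3 := hσ2 l0 hl0
        have h4 := hGD (σ l0) h3.1 s0 r0
        rw [h3.2] at h4
        exact h4
      rw [h2]
      have h5 := (G1_cont h d x hx hMC.hc hd) (s0, σ l0, r0)
        ⟨hp0.1, mem_closedBall_zero_iff.2 (hσ2 l0 hl0).1, hp0.2.2⟩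
      have h6 : Tendsto (fun p : ℝ × L × ℝ => (p.1, σ p.2.1, p.2.2)) U
          (𝓝[Icc (0 : ℝ) (1 / 4) ×ˢ (closedBall (0 : ℂ) 1 ×ˢ Icc (0 : ℝ) (1 / 2))]
            (s0, σ l0, r0)) := by
        refine tendsto_nhdsWithin_iff.2 ⟨hs.prodMk_nhds (h1.prodMk_nhds hr), ?_⟩
        filter_upwards [hUD, hc] with p hp hq
        exact ⟨hp.1, mem_closedBall_zero_iff.2 (hσ2 _ hq).1, hp.2.2⟩
      refine (h5.tendsto.comp h6).congr' ?_
      filter_upwards [hc] with p hq
      show G1 h d p.1 (σ p.2.1) p.2.2 = hG h d σ p.1 p.2.1 p.2.2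
      have h3 := hσ2 _ hq
      have h4 := hGD (σ p.2.1) h3.1 p.1 p.2.2
      rw [h3.2] at h4
      exact h4.symm
    · have hc' : ∀ᶠ p in (U : Filter (ℝ × L × ℝ)), p.2.1 ∈ (d '' ball 0 1)ᶜ := by
        filter_upwards [hc] with p hp hq
        exact hp (image_mono ball_subset_closedBall hq)
      have hl0 : l0 ∈ (d '' ball 0 1)ᶜ := hdo.isClosed_compl.mem_of_tendsto hl hc'
      have h2 : hG h d σ s0 l0 r0 = G2 h d s0 l0 r0 := by
        unfold hG
        rw [if_neg hl0]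
      rw [h2]
      have h5 := (G2_cont h d x hx hMC.hc) (s0, l0, r0) hp0
      have h6 : Tendsto (fun p : ℝ × L × ℝ => p) U
          (𝓝[Icc (0 : ℝ) (1 / 4) ×ˢ (univ ×ˢ Icc (0 : ℝ) (1 / 2))] (s0, l0, r0)) :=
        tendsto_nhdsWithin_iff.2 ⟨hid, hUD⟩
      refine (h5.tendsto.comp h6).congr' ?_
      filter_upwards [hc'] with p hq
      show G2 h d p.1 p.2.1 p.2.2 = hG h d σ p.1 p.2.1 p.2.2
      unfold hG
      rw [if_neg hq]
  have hG0 : ∀ s : ℝ, 0 ≤ s → ∀ l : L, hG h d σ s l 0 = h (d 0, s) := by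
    intro s hs l
    unfold hG
    by_cases hc : l ∈ d '' ball 0 1
    · rw [if_pos hc]
      exact G1_zero h d x hx s hs _
    · rw [if_neg hc]
      unfold G2
      rcases eq_or_lt_of_le hs with h1 | h1
      · rw [← h1, if_pos (le_refl _), sub_zero, hx, hx]
      · rw [if_neg (not_le.2 h1), sub_zero]
  -- the coordinates
  have hPx : Pc h (d 0) x = (d 0, 0) := by
    unfold Pc
    rw [dif_neg]
    rintro ⟨p, hp, he⟩
    exact hne p.1 p.2 hp he
  have hPI : ∀ l : L, ∀ r ∈ Ioo (0 : ℝ) 1, Pc h (d 0) (h (l, r)) = (l, r) := by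
    intro l r hr
    have H : Co h (h (l, r)) := ⟨(l, r), hr, rfl⟩
    unfold Pc
    rw [dif_pos H]
    obtain ⟨h2, h3⟩ := Classical.choose_spec H
    have h4 := hMC.hi (Classical.choose H).1 l (Classical.choose H).2 h2 r hr h3
    exact Prod.ext h4.1 h4.2
  have hPO : ∀ y ∈ O, (Pc h (d 0) y).2 ∈ Ico (0 : ℝ) 1 ∧ h (Pc h (d 0) y) = y := by
    intro y hy
    by_cases hyx : y = x
    · rw [hyx, hPx]
      exact ⟨⟨le_refl _, zero_lt_one⟩, hx _⟩
    · obtain ⟨l, r, hr, rfl⟩ := hMC.hs y hy hyx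
      rw [hPI l r hr]
      exact ⟨⟨hr.1.le, hr.2⟩, rfl⟩
  let Φ : ℝ → X → X := fun s y => hG h d σ s (Pc h (d 0) y).1 (Pc h (d 0) y).2
  have hΦ : ∀ s : ℝ, 0 ≤ s → ∀ l : L, ∀ r ∈ Ico (0 : ℝ) 1, Φ s (h (l, r)) = hG h d σ s l r := by
    intro s hs l r hr
    rcases eq_or_lt_of_le hr.1 with h1 | h1
    · show hG h d σ s (Pc h (d 0) (h (l, r))).1 (Pc h (d 0) (h (l, r))).2 = _
      rw [← h1, hx, hPx, hG0 s hs, hG0 s hs]
    · show hG h d σ s (Pc h (d 0) (h (l, r))).1 (Pc h (d 0) (h (l, r))).2 = _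
      rw [hPI l r ⟨h1, hr.2⟩]
  refine ⟨{y | y ∈ O ∧ (Pc h (d 0) y).2 < 1 / 2}, 1 / 4, Φ, ?_, ?_, ?_, ?_⟩
  · -- the set is open
    rw [isOpen_iff_ultrafilter]
    rintro y ⟨hyO, hyr⟩ U hU
    by_contra hcon
    have hcon' := Ultrafilter.compl_mem_iff_notMem.2 hcon
    have hO : ∀ᶠ z in (U : Filter X), z ∈ O := hU (hMC.oO.mem_nhds hyO)
    have hev : ∀ᶠ z in (U : Filter X), z ∈ O ∧ 1 / 2 ≤ (Pc h (d 0) z).2 := by
      filter_upwards [hO, hcon'] with z h1 h2
      refine ⟨h1, not_lt.1 fun h3 => h2 ⟨h1, h3⟩⟩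
    obtain ⟨K, hKc, hyK, hKO⟩ := exists_compact_subset hMC.oO hyO
    have hK := hMC.hp K hKO hKc
    have hYK : ∀ᶠ z in (U : Filter X), z ∈ K := hU (mem_interior_iff_mem_nhds.1 hyK)
    obtain ⟨p, hpG, hp⟩ := hK.ultrafilter_le_nhds (U.map (Pc h (d 0))) (by
      rw [le_principal_iff]
      have : ∀ᶠ z in (U : Filter X), Pc h (d 0) z ∈ {p : L × ℝ | p.2 ∈ Ico (0 : ℝ) 1 ∧ h p ∈ K} := by
        filter_upwards [hev, hYK] with z h1 h2
        have h3 := hPO z h1.1
        exact ⟨h3.1, by rw [h3.2]; exact h2⟩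
      exact this)
    have hPt : Tendsto (Pc h (d 0)) U (𝓝 p) := hp
    have hPw : Tendsto (Pc h (d 0)) U (𝓝[univ ×ˢ Ico (0 : ℝ) 1] p) := by
      refine tendsto_nhdsWithin_iff.2 ⟨hPt, ?_⟩
      filter_upwards [hev] with z hz
      exact ⟨mem_univ _, (hPO z hz.1).1⟩
    have h3 : Tendsto (fun z => h (Pc h (d 0) z)) U (𝓝 (h p)) :=
      (hMC.hc p ⟨mem_univ _, hpG.1⟩).tendsto.comp hPw
    have h4 : Tendsto (fun z : X => z) U (𝓝 (h p)) := by
      refine h3.congr' ?_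
      filter_upwards [hev] with z hz using (hPO z hz.1).2
    have h5 : y = h p := tendsto_nhds_unique hU h4
    have h6 : 1 / 2 ≤ p.2 := by
      refine ge_of_tendsto ((continuous_snd.tendsto p).comp hPt) ?_
      filter_upwards [hev] with z hz using hz.2
    have h7 : Pc h (d 0) y = p := by
      rw [h5]
      exact hPI p.1 p.2 ⟨by linarith, hpG.1.2⟩
    rw [h7] at hyr
    linarith
  · refine ⟨hxO, ?_⟩
    rw [hPx]
    norm_num
  · refine ⟨subset_univ _, by norm_num, ?_, fun _ _ _ _ => mem_univ _, ?_, ?_⟩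
    · -- continuity
      rintro ⟨s0, y0⟩ ⟨hs0, hy0⟩
      simp only at hs0 hy0
      refine tendsto_iff_ultrafilter _ _ _ |>.2 ?_
      intro U hU
      have hid : Tendsto (fun p : ℝ × X => p) U (𝓝 (s0, y0)) := hU.trans nhdsWithin_le_nhds
      have hs : Tendsto (fun p : ℝ × X => p.1) U (𝓝 s0) := (continuous_fst.tendsto (s0, y0)).comp hid
      have hy : Tendsto (fun p : ℝ × X => p.2) U (𝓝 y0) := (continuous_snd.tendsto (s0, y0)).comp hid
      have hUD : ∀ᶠ p in (U : Filter (ℝ × X)), p.1 ∈ Icc (0 : ℝ) (1 / 4) ∧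
          (p.2 ∈ O ∧ (Pc h (d 0) p.2).2 < 1 / 2) := hU self_mem_nhdsWithin
      obtain ⟨q, hqG, hq⟩ := ((isCompact_univ (X := L)).prod (isCompact_Icc (a := (0 : ℝ))
        (b := 1 / 2))).ultrafilter_le_nhds (U.map (fun p : ℝ × X => Pc h (d 0) p.2)) (by
          rw [le_principal_iff]
          have : ∀ᶠ p in (U : Filter (ℝ × X)), Pc h (d 0) p.2 ∈
              (univ : Set L) ×ˢ Icc (0 : ℝ) (1 / 2) := by
            filter_upwards [hUD] with p hp
            exact ⟨mem_univ _, (hPO p.2 hp.2.1).1.1, hp.2.2.le⟩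
          exact this)
      have hqt : Tendsto (fun p : ℝ × X => Pc h (d 0) p.2) U (𝓝 q) := hq
      have hq2 : q.2 ∈ Icc (0 : ℝ) (1 / 2) := hqG.2
      have hq3 : q.2 ∈ Ico (0 : ℝ) 1 := ⟨hq2.1, by linarith [hq2.2]⟩
      have h3 : Tendsto (fun p : ℝ × X => h (Pc h (d 0) p.2)) U (𝓝 (h q)) := by
        refine (hMC.hc q ⟨mem_univ _, hq3⟩).tendsto.comp (tendsto_nhdsWithin_iff.2 ⟨hqt, ?_⟩)
        filter_upwards [hUD] with p hp
        exact ⟨mem_univ _, (hPO p.2 hp.2.1).1⟩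
      have h4 : Tendsto (fun p : ℝ × X => p.2) U (𝓝 (h q)) := by
        refine h3.congr' ?_
        filter_upwards [hUD] with p hp using (hPO p.2 hp.2.1).2
      have h5 : y0 = h q := tendsto_nhds_unique hy h4
      have h6 : Φ s0 y0 = hG h d σ s0 q.1 q.2 := by
        rw [h5]
        exact hΦ s0 hs0.1 q.1 q.2 hq3
      show Tendsto (fun p : ℝ × X => Φ p.1 p.2) U (𝓝 (Φ s0 y0))
      rw [h6]
      have h7 : Tendsto (fun p : ℝ × X => (p.1, (Pc h (d 0) p.2).1, (Pc h (d 0) p.2).2)) U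
          (𝓝[Icc (0 : ℝ) (1 / 4) ×ˢ (univ ×ˢ Icc (0 : ℝ) (1 / 2))] (s0, q.1, q.2)) := by
        refine tendsto_nhdsWithin_iff.2 ⟨hs.prodMk_nhds hqt, ?_⟩
        filter_upwards [hUD] with p hp
        exact ⟨hp.1, mem_univ _, (hPO p.2 hp.2.1).1.1, hp.2.2.le⟩
      exact ((hGcont (s0, q.1, q.2) ⟨hs0, mem_univ _, hq2⟩).tendsto.comp h7)
    · -- time zero
      rintro y ⟨hyO, hyr⟩
      obtain ⟨h1, h2⟩ := hPO y hyO
      show hG h d σ 0 (Pc h (d 0) y).1 (Pc h (d 0) y).2 = y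
      unfold hG
      by_cases hc : (Pc h (d 0) y).1 ∈ d '' ball 0 1
      · rw [if_pos hc, G1_id h d x hx _ _ h1.1,
          (hσ2 _ (image_mono ball_subset_closedBall hc)).2]
        exact h2
      · rw [if_neg hc]
        unfold G2
        rw [if_pos h1.1, sub_zero]
        exact h2
    · -- the semiflow law
      rintro y ⟨hyO, hyr⟩ s s' hs hs' hss _
      obtain ⟨h1, h2⟩ := hPO y hyO
      show hG h d σ (s + s') (Pc h (d 0) y).1 (Pc h (d 0) y).2 =
        Φ s (hG h d σ s' (Pc h (d 0) y).1 (Pc h (d 0) y).2)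
      generalize (Pc h (d 0) y).1 = l at *
      generalize (Pc h (d 0) y).2 = r at *
      by_cases hc : l ∈ d '' ball 0 1
      · have h3 := hσ2 _ (image_mono ball_subset_closedBall hc)
        have h4 : ∀ t : ℝ, hG h d σ t l r = G1 h d t (σ l) r := by
          intro t
          unfold hG
          rw [if_pos hc]
        rw [h4, h4, G1_add h d x hx s s' hs hs' (σ l) h3.1 r h1.1]
        have h5 : G1 h d s' (σ l) r = h (d (wn s' (σ l) r), rho s' (σ l) r) := rfl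
        have h6 := rho_le s' hs' (σ l) r h1.1
        rw [h5, hΦ s hs _ _ ⟨rho_nonneg s' (σ l) h3.1 r h1.1, by linarith⟩,
          hGD _ (norm_wn_le s' (σ l) h3.1 r h1.1)]
      · have h4 : ∀ t r' : ℝ, hG h d σ t l r' = G2 h d t l r' := by
          intro t r'
          unfold hG
          rw [if_neg hc]
        rw [h4, h4]
        by_cases h5 : s' ≤ r
        · have h6 : G2 h d s' l r = h (l, r - s') := by
            unfold G2
            rw [if_pos h5]
          rw [h6, hΦ s hs l (r - s') ⟨by linarith, by linarith [h1.2]⟩, h4]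
          unfold G2
          by_cases h7 : s + s' ≤ r
          · rw [if_pos h7, if_pos (by linarith : s ≤ r - s')]
            congr 2
            ring
          · rw [if_neg h7, if_neg (by intro h8; exact h7 (by linarith) : ¬ s ≤ r - s')]
            congr 2
            ring
        · have h6 : G2 h d s' l r = h (d 0, s' - r) := by
            unfold G2
            rw [if_neg h5]
          have h7 : r < s' := not_le.1 h5
          rw [h6, hΦ s hs (d 0) (s' - r) ⟨by linarith, by linarith [h1.1]⟩,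
            hGD 0 (by rw [norm_zero]; exact zero_le_one), G1_w0 h d s (s' - r) hs (by linarith)]
          unfold G2
          rw [if_neg (by intro h8; exact h5 (by linarith) : ¬ s + s' ≤ r)]
          congr 2
          ring
  · intro s hs
    show hG h d σ s (Pc h (d 0) x).1 (Pc h (d 0) x).2 ≠ x
    rw [hPx, hG0 s hs.1.le]
    exact hne (d 0) s ⟨hs.1, by linarith [hs.2]⟩

theorem hCMV (_ : StQUO) : StCMV := hCMV'

end Pool.Agent.Helper40.CWS
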