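import Pool.Agent.Helper35.CWS.StB

/-! Project CWS, module MCC: a mapping cylinder neighbourhood collapses. -/

set_option autoImplicit false

namespace Pool.Agent.Helper40.CWS

open Set Topology Metric Filter Pool.Agent.Helper35.CWS

section

variable {X L : Type}

/-- The pairs of cylinder coordinates of `y`. -/
def Co (h : L × ℝ → X) (y : X) : Prop := ∃ p : L × ℝ, p.2 ∈ Ioo (0 : ℝ) 1 ∧ h p = y

open Classical in
/-- The height. -/
noncomputable def ht (h : L × ℝ → X) (y : X) : ℝ :=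
  if H : Co h y then (Classical.choose H).2 else 0

open Classical in
/-- The collapse. -/
noncomputable def Rr (h : L × ℝ → X) (s : ℝ) (y : X) : X :=
  if H : Co h y then h ((Classical.choose H).1, (Classical.choose H).2 - s) else y

end

theorem hMCC : StMCC := by
  intro X _ _ _ O S L _ h hS hMC
  classical
  have hnS : ∀ y ∈ S, ¬ Co h y := by
    rintro y hy ⟨⟨l, r⟩, hr, rfl⟩
    have hr' : r ∈ Ioo (0 : ℝ) 1 := hr
    have := (hMC.hS l r ⟨hr'.1.le, hr'.2⟩).1 hy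
    exact absurd this (ne_of_gt hr'.1)
  have htS : ∀ y ∈ S, ht h y = 0 := by
    intro y hy
    unfold ht
    rw [dif_neg (hnS y hy)]
  have hRS : ∀ y ∈ S, ∀ s, Rr h s y = y := by
    intro y hy s
    unfold Rr
    rw [dif_neg (hnS y hy)]
  have hch : ∀ (l : L) (r : ℝ), r ∈ Ioo (0 : ℝ) 1 → ∀ H : Co h (h (l, r)),
      Classical.choose H = (l, r) := by
    intro l r hr H
    have h1 := Classical.choose_spec H
    obtain ⟨h2, h3⟩ := h1
    have h4 := hMC.hi (Classical.choose H).1 l (Classical.choose H).2 h2 r hr h3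
    exact Prod.ext h4.1 h4.2
  have htI : ∀ (l : L) (r : ℝ), r ∈ Ico (0 : ℝ) 1 → ht h (h (l, r)) = r := by
    intro l r hr
    rcases eq_or_lt_of_le hr.1 with h0 | h0
    · rw [← h0]
      exact htS _ ((hMC.hS l 0 ⟨le_refl _, zero_lt_one⟩).2 rfl)
    · have hr' : r ∈ Ioo (0 : ℝ) 1 := ⟨h0, hr.2⟩
      have H : Co h (h (l, r)) := ⟨(l, r), hr', rfl⟩
      unfold ht
      rw [dif_pos H, hch l r hr' H]
  have hRI : ∀ (l : L) (r : ℝ), r ∈ Ico (0 : ℝ) 1 → ∀ s : ℝ, 0 ≤ s → s ≤ r →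
      Rr h s (h (l, r)) = h (l, r - s) := by
    intro l r hr s hs0 hsr
    rcases eq_or_lt_of_le hr.1 with h0 | h0
    · have hs : s = 0 := le_antisymm (h0 ▸ hsr) hs0
      rw [hRS _ ((hMC.hS l r hr).2 h0.symm), hs, sub_zero]
    · have hr' : r ∈ Ioo (0 : ℝ) 1 := ⟨h0, hr.2⟩
      have H : Co h (h (l, r)) := ⟨(l, r), hr', rfl⟩
      unfold Rr
      rw [dif_pos H, hch l r hr' H]
  -- every point of `O` has coordinates or is in `S`
  have hcase : ∀ y ∈ O, y ∈ S ∨ ∃ l : L, ∃ r ∈ Ioo (0 : ℝ) 1, h (l, r) = y := by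
    intro y hy
    by_cases hyS : y ∈ S
    · exact Or.inl hyS
    · exact Or.inr (hMC.hs y hy hyS)
  -- the compactness argument
  have key : ∀ (α : Type) (U : Ultrafilter α) (Y : α → X) (y : X), y ∈ O →
      Tendsto Y U (𝓝 y) → (∀ᶠ a in (U : Filter α), Y a ∈ O ∧ Y a ∉ S) →
      ∃ (P : α → L × ℝ) (p : L × ℝ), (∀ᶠ a in (U : Filter α), (P a).2 ∈ Ioo (0 : ℝ) 1 ∧ h (P a) = Y a) ∧
        p.2 ∈ Ico (0 : ℝ) 1 ∧ Tendsto P U (𝓝 p) ∧ h p = y := by
    intro α U Y y hy hY hev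
    have hinh : Nonempty (L × ℝ) := by
      obtain ⟨a, ha⟩ := hev.exists
      obtain ⟨l, r, _, _⟩ := hMC.hs (Y a) ha.1 ha.2
      exact ⟨(l, r)⟩
    obtain ⟨K, hKc, hyK, hKO⟩ : ∃ K : Set X, IsCompact K ∧ y ∈ interior K ∧ K ⊆ O := by
      obtain ⟨K, hK, h1, h2⟩ := exists_compact_subset hMC.oO hy
      exact ⟨K, hK, h1, h2⟩
    have hG := hMC.hp K hKO hKc
    let P : α → L × ℝ := fun a =>
      if H : Co h (Y a) then Classical.choose H else Classical.choice hinh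
    have hP : ∀ᶠ a in (U : Filter α), (P a).2 ∈ Ioo (0 : ℝ) 1 ∧ h (P a) = Y a := by
      filter_upwards [hev] with a ha
      obtain ⟨l, r, hr, hlr⟩ := hMC.hs (Y a) ha.1 ha.2
      have H : Co h (Y a) := ⟨(l, r), hr, hlr⟩
      have h1 : P a = Classical.choose H := dif_pos H
      rw [h1]
      exact Classical.choose_spec H
    have hYK : ∀ᶠ a in (U : Filter α), Y a ∈ K :=
      (hY.eventually (mem_interior_iff_mem_nhds.1 hyK))
    have hPG : ((U.map P : Ultrafilter (L × ℝ)) : Filter (L × ℝ)) ≤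
        𝓟 {p : L × ℝ | p.2 ∈ Ico (0 : ℝ) 1 ∧ h p ∈ K} := by
      rw [le_principal_iff]
      have : ∀ᶠ a in (U : Filter α), P a ∈ {p : L × ℝ | p.2 ∈ Ico (0 : ℝ) 1 ∧ h p ∈ K} := by
        filter_upwards [hP, hYK] with a h1 h2
        exact ⟨⟨h1.1.1.le, h1.1.2⟩, by rw [h1.2]; exact h2⟩
      exact this
    obtain ⟨p, hpG, hp⟩ := hG.ultrafilter_le_nhds (U.map P) hPG
    have hPt : Tendsto P U (𝓝 p) := hp
    refine ⟨P, p, hP, hpG.1, hPt, ?_⟩
    have hPw : Tendsto P U (𝓝[univ ×ˢ Ico (0 : ℝ) 1] p) := by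
      refine tendsto_nhdsWithin_iff.2 ⟨hPt, ?_⟩
      filter_upwards [hP] with a ha
      exact ⟨mem_univ _, ha.1.1.le, ha.1.2⟩
    have hcp : ContinuousWithinAt h (univ ×ˢ Ico (0 : ℝ) 1) p := hMC.hc p ⟨mem_univ _, hpG.1⟩
    have h3 : Tendsto (fun a => h (P a)) U (𝓝 (h p)) := hcp.tendsto.comp hPw
    have h4 : Tendsto Y U (𝓝 (h p)) := by
      refine h3.congr' ?_
      filter_upwards [hP] with a ha using ha.2
    exact tendsto_nhds_unique h4 hY
  refine ⟨ht h, Rr h, ?_⟩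
  constructor
  · -- continuity of the height
    intro y hy
    refine tendsto_iff_ultrafilter _ _ _ |>.2 ?_
    intro U hU
    have hid : Tendsto (fun y' : X => y') U (𝓝 y) := hU.trans nhdsWithin_le_nhds
    have hUO : ∀ᶠ y' in (U : Filter X), y' ∈ O := hU self_mem_nhdsWithin
    rcases U.mem_or_compl_mem S with hUS | hUS
    · have hyS : y ∈ S := hS.mem_of_tendsto hid hUS
      rw [htS y hyS]
      refine tendsto_const_nhds.congr' ?_
      filter_upwards [hUS] with a ha using (htS a ha).symm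
    · obtain ⟨P, p, hP, hp1, hPt, hpy⟩ := key X U (fun y' => y') y hy hid
        (hUO.and hUS)
      have h1 : ht h y = p.2 := by
        rw [← hpy]
        exact htI p.1 p.2 hp1
      rw [h1]
      refine ((continuous_snd.tendsto p).comp hPt).congr' ?_
      filter_upwards [hP] with a ha
      show (P a).2 = ht h a
      have h2 := htI (P a).1 (P a).2 ⟨ha.1.1.le, ha.1.2⟩
      rw [← h2]
      exact congrArg (ht h) ha.2
  · intro y hy
    rcases hcase y hy with h1 | ⟨l, r, hr, rfl⟩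
    · exact (htS y h1).ge
    · rw [htI l r ⟨hr.1.le, hr.2⟩]
      exact hr.1.le
  · intro y hy
    constructor
    · intro h0
      rcases hcase y hy with h1 | ⟨l, r, hr, rfl⟩
      · exact h1
      · rw [htI l r ⟨hr.1.le, hr.2⟩] at h0
        exact absurd h0 (ne_of_gt hr.1)
    · exact htS y
  · -- continuity of the collapse
    rintro ⟨s, y⟩ ⟨hy, hs0, hst⟩
    refine tendsto_iff_ultrafilter _ _ _ |>.2 ?_
    intro U hU
    have hid : Tendsto (fun p : ℝ × X => p) U (𝓝 (s, y)) := hU.trans nhdsWithin_le_nhds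
    have h2 : Tendsto (fun p : ℝ × X => p.2) U (𝓝 y) := (continuous_snd.tendsto (s, y)).comp hid
    have h1 : Tendsto (fun p : ℝ × X => p.1) U (𝓝 s) := (continuous_fst.tendsto (s, y)).comp hid
    have hUD : ∀ᶠ p in (U : Filter (ℝ × X)), p.2 ∈ O ∧ 0 ≤ p.1 ∧ p.1 ≤ ht h p.2 :=
      hU self_mem_nhdsWithin
    rcases U.mem_or_compl_mem {p : ℝ × X | p.2 ∈ S} with hUS | hUS
    · have hyS : y ∈ S := hS.mem_of_tendsto h2 hUS
      show Tendsto (fun p : ℝ × X => Rr h p.1 p.2) U (𝓝 (Rr h s y))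
      rw [hRS y hyS]
      refine h2.congr' ?_
      filter_upwards [hUS] with a ha using (hRS a.2 ha a.1).symm
    · obtain ⟨P, p, hP, hp1, hPt, hpy⟩ := key (ℝ × X) U (fun q => q.2) y hy h2
        ((hUD.mono fun a ha => ha.1).and hUS)
      have h3 : ht h y = p.2 := by
        rw [← hpy]
        exact htI p.1 p.2 hp1
      have hsp : s ≤ p.2 := h3 ▸ hst
      have h4 : Rr h s y = h (p.1, p.2 - s) := by
        rw [← hpy]
        exact hRI p.1 p.2 hp1 s hs0 hsp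
      show Tendsto (fun p : ℝ × X => Rr h p.1 p.2) U (𝓝 (Rr h s y))
      rw [h4]
      have hin : (p.1, p.2 - s) ∈ (univ : Set L) ×ˢ Ico (0 : ℝ) 1 :=
        ⟨mem_univ _, sub_nonneg.2 hsp, lt_of_le_of_lt (sub_le_self _ hs0) hp1.2⟩
      have hcp : ContinuousWithinAt h (univ ×ˢ Ico (0 : ℝ) 1) (p.1, p.2 - s) := hMC.hc _ hin
      have hPa : ∀ᶠ a in (U : Filter (ℝ × X)), ht h a.2 = (P a).2 ∧ (P a).2 ∈ Ioo (0 : ℝ) 1 ∧
          h (P a) = a.2 := by
        filter_upwards [hP] with a ha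
        refine ⟨?_, ha.1, ha.2⟩
        have h5 := htI (P a).1 (P a).2 ⟨ha.1.1.le, ha.1.2⟩
        rw [← h5]
        exact congrArg (ht h) ha.2.symm
      have hQ : Tendsto (fun a : ℝ × X => ((P a).1, (P a).2 - a.1)) U
          (𝓝[univ ×ˢ Ico (0 : ℝ) 1] (p.1, p.2 - s)) := by
        refine tendsto_nhdsWithin_iff.2 ⟨?_, ?_⟩
        · exact (((continuous_fst.tendsto p).comp hPt)).prodMk_nhds
            ((((continuous_snd.tendsto p).comp hPt)).sub h1)
        · filter_upwards [hPa, hUD] with a ha hb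
          refine ⟨mem_univ _, ?_, ?_⟩
          · show 0 ≤ (P a).2 - a.1
            rw [← ha.1]
            exact sub_nonneg.2 hb.2.2
          · show (P a).2 - a.1 < 1
            exact lt_of_le_of_lt (sub_le_self _ hb.2.1) ha.2.1.2
      refine (hcp.tendsto.comp hQ).congr' ?_
      filter_upwards [hPa, hUD] with a ha hb
      show h ((P a).1, (P a).2 - a.1) = Rr h a.1 a.2
      have h6 := hRI (P a).1 (P a).2 ⟨ha.2.1.1.le, ha.2.1.2⟩ a.1 hb.2.1 (ha.1 ▸ hb.2.2)
      rw [← h6]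
      exact congrArg (Rr h a.1) ha.2.2
  · intro y hy s hs0 hst
    rcases hcase y hy with h1 | ⟨l, r, hr, rfl⟩
    · rw [hRS y h1]
      exact hy
    · have hr' : r ∈ Ico (0 : ℝ) 1 := ⟨hr.1.le, hr.2⟩
      rw [htI l r hr'] at hst
      rw [hRI l r hr' s hs0 hst]
      exact hMC.hm l (r - s) ⟨sub_nonneg.2 hst, lt_of_le_of_lt (sub_le_self _ hs0) hr.2⟩
  · intro y hy s hs0 hst
    rcases hcase y hy with h1 | ⟨l, r, hr, rfl⟩
    · rw [htS y h1] at hst
      have hs : s = 0 := le_antisymm hst hs0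
      rw [hRS y h1, hs, sub_zero]
    · have hr' : r ∈ Ico (0 : ℝ) 1 := ⟨hr.1.le, hr.2⟩
      rw [htI l r hr'] at hst ⊢
      rw [hRI l r hr' s hs0 hst]
      exact htI l (r - s) ⟨sub_nonneg.2 hst, lt_of_le_of_lt (sub_le_self _ hs0) hr.2⟩
  · intro y hy
    rcases hcase y hy with h1 | ⟨l, r, hr, rfl⟩
    · exact hRS y h1 0
    · rw [hRI l r ⟨hr.1.le, hr.2⟩ 0 (le_refl _) hr.1.le, sub_zero]
  · intro y hy s s' hs0 hs0' hst
    rcases hcase y hy with h1 | ⟨l, r, hr, rfl⟩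
    · rw [hRS y h1, hRS y h1, hRS y h1]
    · have hr' : r ∈ Ico (0 : ℝ) 1 := ⟨hr.1.le, hr.2⟩
      rw [htI l r hr'] at hst
      have hs'r : s' ≤ r := by linarith
      have hin : r - s' ∈ Ico (0 : ℝ) 1 :=
        ⟨sub_nonneg.2 hs'r, lt_of_le_of_lt (sub_le_self _ hs0') hr.2⟩
      rw [hRI l r hr' (s + s') (by linarith) hst, hRI l r hr' s' hs0' hs'r,
        hRI l (r - s') hin s hs0 (by linarith)]
      congr 2
      ring

end Pool.Agent.Helper40.CWS
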